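import Mathlib
import Pool.Agent.Run7.h405.Stmt
import Pool.Agent.Run7.h405.Check
import Pool.Agent.Run7.h405.Final

/-!
MP_740c6d_ag, Q1, negated form.  The definitions are in `Pool/Agent/Run7/h405/Stmt.lean`.
-/

namespace Pool.Agent.Results.MP_740c6d_ag.LcpNotFinGen

open Run7.h405.E MvPolynomial

/-- Check of the definition of the log discrepancy (not used below), general charts.
`φ : R → A` is a chart, for instance `A` the local ring of a closed point of a log smooth model of
`A^3`; `y` are parameters with dual derivations `δᵢ = ∂/∂yᵢ`, rational over `A^3`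
(`yᵢ = g i / h`); and `w` extends to a valuation `u` of `A` that is quasi-monomial in `y`, i.e. the
`yᵢ ∂/∂yᵢ` do not lower `u`.  Then `logDisc w = ∑ w(yᵢ) + w(det (∂xⱼ/∂yᵢ))`, which is
`∑ w(yᵢ) (1 + ord_{Eᵢ} K_{Y/X})` when the Jacobian is a monomial in the equations `yᵢ` of the
`Eᵢ` times a unit. -/
theorem logDisc_quasimonomial (k : Type*) [Field k] (w : Val k) (A : Type*) [CommRing A]
    [Algebra k A] (φ : MvPolynomial (Fin 3) k →ₐ[k] A) (u : AddValuation A (WithTop ℝ))
    (hu : ∀ f, f ≠ 0 → u (φ f) = ((w.v f : ℝ) : WithTop ℝ))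
    (y : Fin 3 → A) (δ : Fin 3 → Derivation k A A)
    (hδ : ∀ i j, δ i (y j) = if i = j then 1 else 0)
    (g : Fin 3 → MvPolynomial (Fin 3) k) (h : MvPolynomial (Fin 3) k) (hh : h ≠ 0)
    (hg : ∀ i, y i * φ h = φ (g i))
    (hqm : ∀ i a, u a ≤ u (y i * δ i a))
    (α : Fin 3 → ℝ) (hα : ∀ i, u (y i) = ((α i : ℝ) : WithTop ℝ))
    (c : ℝ) (hc : u (Matrix.det (fun i j => δ i (φ (X j)))) = ((c : ℝ) : WithTop ℝ)) :
    logDisc w = ENNReal.ofReal ((∑ i, α i) + c) :=
  logDisc_eq_of_chart w φ u hu y δ hδ g h hh hg α hα c hc hqm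

/-- Over every field `k` of characteristic zero there is a graded sequence of ideals of
`k[x,y,z]`, primary to the maximal ideal of the origin, of finite log canonical threshold, such
that no valuation computing the threshold has a finitely generated associated graded algebra
(and there are valuations computing it). -/
theorem result (k : Type*) [Field k] [CharZero k] :
    ∃ a : GradedSeq k, lct a ≠ ⊤ ∧ (LCP a).Nonempty ∧
      ∀ w ∈ LCP a, ¬ Algebra.FiniteType k (Gr w) :=
  Run7.h405.main k

end Pool.Agent.Results.MP_740c6d_ag.LcpNotFinGen
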